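import Pool.Agent.Helper18.RD.Stmts2
import Pool.Agent.Helper15.HallDiv

set_option autoImplicit false

namespace Pool.Agent.Helper54.RD

open Finset Pool.Agent.Helper18.RD

/-- decomposition of a natural number into a square and a squarefree part -/
lemma exists_sqf (D : ℕ) : ∃ e α : ℕ, α ^ 2 * e = D ∧ Squarefree e := by
  obtain ⟨a, b, h, hs⟩ := Nat.sq_mul_squarefree D
  exact ⟨a, b, h, hs⟩

/-- the squarefree part -/
noncomputable def sqp (D : ℕ) : ℕ := (exists_sqf D).choose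

lemma sqp_spec (D : ℕ) : ∃ α : ℕ, α ^ 2 * sqp D = D ∧ Squarefree (sqp D) :=
  (exists_sqf D).choose_spec

/-- the squarefree part of `s` divides `B (x - y) u v` -/
lemma key_dvd (B u v s t w : ℤ) (hB : B ≠ 0) (hu : u ≠ 0) (hv : v ≠ 0) (hs : s ≠ 0) (ht : t ≠ 0)
    (hw : s - t = w) (hsq : IsSquare (B * u * v * s * t)) (e α : ℕ) (he : Squarefree e)
    (hse : α ^ 2 * e = s.natAbs) : e ∣ (B * w * u * v).natAbs := by
  have he0 : e ≠ 0 := he.ne_zero
  have hα : α ≠ 0 := by
    rintro rfl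
    apply hs
    rw [← Int.natAbs_eq_zero, ← hse]
    simp
  rw [← Nat.prod_primeFactors_of_squarefree he]
  apply Finset.prod_primes_dvd
  · intro p hp
    exact (Nat.prime_of_mem_primeFactors hp).prime
  · intro p hp
    have hpp : p.Prime := Nat.prime_of_mem_primeFactors hp
    have hpe : p ∣ e := Nat.dvd_of_mem_primeFactors hp
    by_contra hcon
    have h1 : ¬ p ∣ B.natAbs := fun h => hcon (by
      rw [Int.natAbs_mul, Int.natAbs_mul, Int.natAbs_mul]
      exact ((h.mul_right _).mul_right _).mul_right _)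
    have h2 : ¬ p ∣ w.natAbs := fun h => hcon (by
      rw [Int.natAbs_mul, Int.natAbs_mul, Int.natAbs_mul]
      exact ((h.mul_left _).mul_right _).mul_right _)
    have h3 : ¬ p ∣ u.natAbs := fun h => hcon (by
      rw [Int.natAbs_mul, Int.natAbs_mul, Int.natAbs_mul]
      exact (h.mul_left _).mul_right _)
    have h4 : ¬ p ∣ v.natAbs := fun h => hcon (by
      rw [Int.natAbs_mul]
      exact h.mul_left _)
    obtain ⟨r, hr⟩ := hsq
    have hr' : B.natAbs * u.natAbs * v.natAbs * s.natAbs * t.natAbs = r.natAbs ^ 2 := by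
      rw [← Int.natAbs_mul, ← Int.natAbs_mul, ← Int.natAbs_mul, ← Int.natAbs_mul, hr, Int.natAbs_mul,
        sq]
    have hBn : B.natAbs ≠ 0 := Int.natAbs_ne_zero.mpr hB
    have hun : u.natAbs ≠ 0 := Int.natAbs_ne_zero.mpr hu
    have hvn : v.natAbs ≠ 0 := Int.natAbs_ne_zero.mpr hv
    have hsn : s.natAbs ≠ 0 := Int.natAbs_ne_zero.mpr hs
    have htn : t.natAbs ≠ 0 := Int.natAbs_ne_zero.mpr ht
    have hf : (B.natAbs * u.natAbs * v.natAbs * s.natAbs * t.natAbs).factorization p =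
        (r.natAbs ^ 2).factorization p := by rw [hr']
    rw [Nat.factorization_mul (mul_ne_zero (mul_ne_zero (mul_ne_zero hBn hun) hvn) hsn) htn,
      Nat.factorization_mul (mul_ne_zero (mul_ne_zero hBn hun) hvn) hsn,
      Nat.factorization_mul (mul_ne_zero hBn hun) hvn, Nat.factorization_mul hBn hun,
      Nat.factorization_pow, ← hse, Nat.factorization_mul (pow_ne_zero 2 hα) he0,
      Nat.factorization_pow] at hf
    simp only [Finsupp.add_apply, Finsupp.smul_apply, smul_eq_mul] at hf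
    rw [Nat.factorization_eq_zero_of_not_dvd h1, Nat.factorization_eq_zero_of_not_dvd h3,
      Nat.factorization_eq_zero_of_not_dvd h4] at hf
    have hv1 : e.factorization p = 1 := by
      have ha := he.natFactorization_le_one p
      have hb := hpp.factorization_pos_of_dvd he0 hpe
      omega
    have ht1 : 1 ≤ t.natAbs.factorization p := by
      rw [hv1] at hf
      omega
    have hpt : p ∣ t.natAbs := Nat.dvd_of_factorization_pos (by omega)
    have hps : p ∣ s.natAbs := by rw [← hse]; exact hpe.mul_left _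
    apply h2
    have h5 : (p : ℤ) ∣ s := Int.natCast_dvd.mpr hps
    have h6 : (p : ℤ) ∣ t := Int.natCast_dvd.mpr hpt
    have h7 : (p : ℤ) ∣ w := by rw [← hw]; exact dvd_sub h5 h6
    exact Int.natCast_dvd.mp h7

open Classical in
/-- the `n < N` at distance `e` times a nonzero square from `x` -/
lemma near_card (N E x e : ℕ) (hE : 1 ≤ E) (he : E ≤ e) :
    ((((range N).filter (fun n : ℕ => ∃ α : ℕ, 1 ≤ α ∧ α ^ 2 * e = ((n : ℤ) - x).natAbs ∧
      ((n : ℤ) - x).natAbs < N)).card : ℕ) : ℝ) ≤ 2 * Real.sqrt (N / E) := by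
  set A := Nat.sqrt (N / E) with hA
  have hsub : (range N).filter (fun n : ℕ => ∃ α : ℕ, 1 ≤ α ∧ α ^ 2 * e = ((n : ℤ) - x).natAbs ∧
      ((n : ℤ) - x).natAbs < N) ⊆ (Icc 1 A).image (fun α => x + α ^ 2 * e) ∪
        (Icc 1 A).image (fun α => x - α ^ 2 * e) := by
    intro n hn
    rw [mem_filter] at hn
    obtain ⟨-, α, h1, h2, h3⟩ := hn
    have hαA : α ≤ A := by
      rw [hA, Nat.le_sqrt', Nat.le_div_iff_mul_le (by omega)]
      have : α ^ 2 * E ≤ α ^ 2 * e := Nat.mul_le_mul_left _ he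
      omega
    rw [mem_union, mem_image, mem_image]
    rcases le_total x n with hx | hx
    · left
      refine ⟨α, mem_Icc.mpr ⟨h1, hαA⟩, ?_⟩
      omega
    · right
      refine ⟨α, mem_Icc.mpr ⟨h1, hαA⟩, ?_⟩
      omega
  have hc : ((range N).filter (fun n : ℕ => ∃ α : ℕ, 1 ≤ α ∧ α ^ 2 * e = ((n : ℤ) - x).natAbs ∧
      ((n : ℤ) - x).natAbs < N)).card ≤ 2 * A := by
    refine (card_le_card hsub).trans ((card_union_le _ _).trans ?_)
    have h1 := card_image_le (s := Icc 1 A) (f := fun α => x + α ^ 2 * e)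
    have h2 := card_image_le (s := Icc 1 A) (f := fun α => x - α ^ 2 * e)
    rw [Nat.card_Icc] at h1 h2
    omega
  have hA2 : (A : ℝ) ≤ Real.sqrt (N / E) := by
    apply Real.le_sqrt_of_sq_le
    have h1 : A ^ 2 ≤ N / E := Nat.sqrt_le' _
    have h2 : ((N / E : ℕ) : ℝ) ≤ (N : ℝ) / E := Nat.cast_div_le
    have h3 : ((A ^ 2 : ℕ) : ℝ) ≤ ((N / E : ℕ) : ℝ) := by exact_mod_cast h1
    push_cast at h3
    linarith
  have h4 : ((((range N).filter (fun n : ℕ => ∃ α : ℕ, 1 ≤ α ∧ α ^ 2 * e = ((n : ℤ) - x).natAbs ∧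
      ((n : ℤ) - x).natAbs < N)).card : ℕ) : ℝ) ≤ ((2 * A : ℕ) : ℝ) := by exact_mod_cast hc
  push_cast at h4
  linarith

/-- the squarefree part at a triple -/
noncomputable def sp (t : ℕ × ℕ × ℕ) : ℕ := sqp ((t.1 : ℤ) - t.2.1).natAbs

/-- triples with `x = y` -/
lemma cardA1 (S : Finset ℕ) (z : ℕ) (B : ℤ) :
    ((E3 S z B).filter (fun t => t.2.1 = t.2.2)).card ≤ S.card ^ 2 := by
  rw [sq, ← card_product]
  apply card_le_card_of_injOn (fun t => (t.1, t.2.1))
  · intro t ht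
    have ht' := mem_coe.mp ht
    rw [mem_filter] at ht'
    unfold E3 at ht'
    rw [mem_filter, mem_product, mem_product] at ht'
    exact mem_coe.mpr (mem_product.mpr ⟨ht'.1.1.1, ht'.1.1.2.1⟩)
  · rintro ⟨a, b, c⟩ ht ⟨a', b', c'⟩ ht' h
    have h1 := (mem_filter.mp (mem_coe.mp ht)).2
    have h2 := (mem_filter.mp (mem_coe.mp ht')).2
    simp only [Prod.mk.injEq] at h h1 h2 ⊢
    obtain ⟨ha, hb⟩ := h
    refine ⟨ha, hb, ?_⟩
    rw [← h1, ← h2, hb]

open Classical in
/-- triples with `x ≠ y` and small squarefree part -/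
lemma cardA3 (E z : ℕ) (B : ℤ) (S : Finset ℕ) :
    ((E3 S z B).filter (fun t => sp t ≤ E)).card ≤
      2 * S.card * ∑ e ∈ Icc 1 E, (G2 S e).card := by
  have hsub : (E3 S z B).filter (fun t => sp t ≤ E) ⊆
      (Icc 1 E).biUnion (fun e =>
        ((G2 S e) ×ˢ S).image (fun r => (r.1.1, r.1.2, r.2)) ∪
        ((G2 S e) ×ˢ S).image (fun r => (r.1.2, r.1.1, r.2))) := by
    rintro ⟨n, x, y⟩ ht
    rw [mem_filter] at ht
    obtain ⟨ht, hE⟩ := ht
    unfold E3 at ht
    rw [mem_filter, mem_product, mem_product] at ht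
    simp only at ht
    obtain ⟨⟨hn, hx, hy⟩, hnx, hny, hzx, hzy, hsq⟩ := ht
    obtain ⟨α, hα, hsf⟩ := sqp_spec ((n : ℤ) - x).natAbs
    have hsp : sp (n, x, y) = sqp ((n : ℤ) - x).natAbs := rfl
    rw [hsp] at hE
    have hne : ((n : ℤ) - x).natAbs ≠ 0 := by
      rw [Int.natAbs_ne_zero]
      intro h0
      apply hnx
      have : (n : ℤ) = x := by linarith
      exact_mod_cast this
    have he1 : 1 ≤ sqp ((n : ℤ) - x).natAbs := Nat.one_le_iff_ne_zero.mpr hsf.ne_zero
    have hα1 : 1 ≤ α := by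
      rcases Nat.eq_zero_or_pos α with h0 | h0
      · exfalso; apply hne; rw [← hα, h0]; simp
      · exact h0
    rw [mem_biUnion]
    refine ⟨sqp ((n : ℤ) - x).natAbs, mem_Icc.mpr ⟨he1, hE⟩, ?_⟩
    set e := sqp ((n : ℤ) - x).natAbs with hedef
    rw [mem_union, mem_image, mem_image]
    rcases le_total x n with hxn | hxn
    · left
      refine ⟨((n, x), y), mem_product.mpr ⟨?_, hy⟩, rfl⟩
      unfold G2
      rw [mem_filter, mem_product]
      refine ⟨⟨hn, hx⟩, α, hα1, ?_⟩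
      simp only
      rw [mul_comm e]
      omega
    · right
      refine ⟨((x, n), y), mem_product.mpr ⟨?_, hy⟩, rfl⟩
      unfold G2
      rw [mem_filter, mem_product]
      refine ⟨⟨hx, hn⟩, α, hα1, ?_⟩
      simp only
      rw [mul_comm e]
      omega
  refine (card_le_card hsub).trans (card_biUnion_le.trans ?_)
  rw [mul_sum]
  apply sum_le_sum
  intro e _
  refine (card_union_le _ _).trans ?_
  have h1 := card_image_le (s := (G2 S e) ×ˢ S) (f := fun r => (r.1.1, r.1.2, r.2))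
  have h2 := card_image_le (s := (G2 S e) ×ˢ S) (f := fun r => (r.1.2, r.1.1, r.2))
  rw [card_product] at h1 h2
  have h3 : 2 * S.card * (G2 S e).card = (G2 S e).card * S.card + (G2 S e).card * S.card := by ring
  rw [h3]
  exact add_le_add h1 h2

/-- the number whose divisors contain the squarefree parts -/
def Mr (z : ℕ) (B : ℤ) (r : ℕ × ℕ) : ℤ :=
  B * ((r.2 : ℤ) - r.1) * ((z : ℤ) - r.1) * ((z : ℤ) - r.2)

open Classical in
/-- triples with `x ≠ y` and large squarefree part -/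
lemma cardA2 (N E z : ℕ) (B : ℤ) (S : Finset ℕ) (hE : 1 ≤ E) (hB : B ≠ 0) (hS : S ⊆ range N)
    (D : ℝ) (hD : ∀ r ∈ S ×ˢ S, ((Mr z B r).natAbs.divisors.card : ℝ) ≤ D) :
    (((E3 S z B).filter (fun t => t.2.1 ≠ t.2.2 ∧ E < sp t)).card : ℝ) ≤
      (S.card : ℝ) ^ 2 * (D * (2 * Real.sqrt (N / E))) := by
  set nr : ℕ → ℕ → Finset ℕ := fun x e => (range N).filter (fun n : ℕ => ∃ α : ℕ, 1 ≤ α ∧
    α ^ 2 * e = ((n : ℤ) - x).natAbs ∧ ((n : ℤ) - x).natAbs < N) with hnr
  set dv : ℕ × ℕ → Finset ℕ := fun r => (Mr z B r).natAbs.divisors.filter (fun e => E ≤ e) with hdv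
  have hsub : (E3 S z B).filter (fun t => t.2.1 ≠ t.2.2 ∧ E < sp t) ⊆
      (S ×ˢ S).biUnion (fun r => (dv r).biUnion (fun e =>
        (nr r.1 e).image (fun n => (n, r.1, r.2)))) := by
    rintro ⟨n, x, y⟩ ht
    rw [mem_filter] at ht
    obtain ⟨ht, hxy, hEs⟩ := ht
    unfold E3 at ht
    rw [mem_filter, mem_product, mem_product] at ht
    simp only at ht hxy
    obtain ⟨⟨hn, hx, hy⟩, hnx, hny, hzx, hzy, hsq⟩ := ht
    obtain ⟨α, hα, hsf⟩ := sqp_spec ((n : ℤ) - x).natAbs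
    have hsp : sp (n, x, y) = sqp ((n : ℤ) - x).natAbs := rfl
    rw [hsp] at hEs
    have cne : ∀ a b : ℕ, a ≠ b → ((a : ℤ) - b) ≠ 0 := by
      intro a b hab h0
      apply hab
      have : (a : ℤ) = b := by linarith
      exact_mod_cast this
    have hne : ((n : ℤ) - x).natAbs ≠ 0 := Int.natAbs_ne_zero.mpr (cne _ _ hnx)
    have hα1 : 1 ≤ α := by
      rcases Nat.eq_zero_or_pos α with h0 | h0
      · exfalso; apply hne; rw [← hα, h0]; simp
      · exact h0
    have hnN : n < N := mem_range.mp (hS hn)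
    have hxN : x < N := mem_range.mp (hS hx)
    rw [mem_biUnion]
    refine ⟨(x, y), mem_product.mpr ⟨hx, hy⟩, ?_⟩
    rw [mem_biUnion]
    refine ⟨sqp ((n : ℤ) - x).natAbs, ?_, ?_⟩
    · rw [hdv]
      simp only [mem_filter]
      refine ⟨?_, hEs.le⟩
      rw [Nat.mem_divisors]
      refine ⟨?_, ?_⟩
      · exact key_dvd B ((z : ℤ) - x) ((z : ℤ) - y) ((n : ℤ) - x) ((n : ℤ) - y) ((y : ℤ) - x) hB
          (cne _ _ hzx) (cne _ _ hzy) (cne _ _ hnx) (cne _ _ hny) (by ring) hsq _ α hsf hα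
      · rw [Int.natAbs_ne_zero]
        exact mul_ne_zero (mul_ne_zero (mul_ne_zero hB (cne _ _ (Ne.symm hxy))) (cne _ _ hzx))
          (cne _ _ hzy)
    · rw [mem_image]
      refine ⟨n, ?_, rfl⟩
      rw [hnr]
      simp only [mem_filter, mem_range]
      exact ⟨hnN, α, hα1, hα, by omega⟩
  have h1 : (((E3 S z B).filter (fun t => t.2.1 ≠ t.2.2 ∧ E < sp t)).card : ℝ) ≤
      ∑ r ∈ S ×ˢ S, ∑ e ∈ dv r, ((nr r.1 e).card : ℝ) := by
    have h2 : ((E3 S z B).filter (fun t => t.2.1 ≠ t.2.2 ∧ E < sp t)).card ≤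
        ∑ r ∈ S ×ˢ S, ∑ e ∈ dv r, (nr r.1 e).card := by
      refine (card_le_card hsub).trans (card_biUnion_le.trans (sum_le_sum fun r _ => ?_))
      exact card_biUnion_le.trans (sum_le_sum fun e _ => card_image_le)
    exact_mod_cast h2
  have h3 : ∀ r ∈ S ×ˢ S, ∑ e ∈ dv r, ((nr r.1 e).card : ℝ) ≤ D * (2 * Real.sqrt (N / E)) := by
    intro r hr
    calc ∑ e ∈ dv r, ((nr r.1 e).card : ℝ) ≤ ∑ e ∈ dv r, 2 * Real.sqrt (N / E) := by
          apply sum_le_sum
          intro e he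
          exact near_card N E r.1 e hE (mem_filter.mp he).2
      _ = ((dv r).card : ℝ) * (2 * Real.sqrt (N / E)) := by rw [sum_const, nsmul_eq_mul]
      _ ≤ D * (2 * Real.sqrt (N / E)) := by
          apply mul_le_mul_of_nonneg_right _ (by positivity)
          refine le_trans ?_ (hD r hr)
          exact_mod_cast card_filter_le _ _
  refine h1.trans ((sum_le_sum h3).trans ?_)
  rw [sum_const, nsmul_eq_mul, card_product]
  push_cast
  rw [sq]

theorem st_ENC : ST_ENC := by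
  intro ε hε
  obtain ⟨C0, hC0, hdiv⟩ := Pool.Agent.Helper15.Hall.card_divisors_le_uniform (ε / 7) (by positivity)
  refine ⟨2 * (C0 * (256 : ℝ) ^ (ε / 7)), by positivity, ?_⟩
  intro N E z B S hN hE hz hB hBb hS
  have hNr : (1 : ℝ) ≤ N := by exact_mod_cast hN
  have hN0 : (0 : ℝ) < N := by linarith
  -- divisor bound
  have hBn : B.natAbs ≤ 256 * N ^ 4 := by
    have h1 : ((B.natAbs : ℕ) : ℝ) ≤ 256 * (N : ℝ) ^ 4 := by
      rw [Nat.cast_natAbs]
      push_cast
      exact hBb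
    exact_mod_cast h1
  have hD : ∀ r ∈ S ×ˢ S, ((Mr z B r).natAbs.divisors.card : ℝ) ≤
      C0 * (256 : ℝ) ^ (ε / 7) * (N : ℝ) ^ ε := by
    intro r hr
    rw [mem_product] at hr
    have hr1 : r.1 < N := mem_range.mp (hS hr.1)
    have hr2 : r.2 < N := mem_range.mp (hS hr.2)
    rcases eq_or_ne (Mr z B r).natAbs 0 with h0 | h0
    · rw [h0]
      simp only [Nat.divisors_zero, card_empty, Nat.cast_zero]
      positivity
    · have hle : (Mr z B r).natAbs ≤ 256 * N ^ 7 := by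
        unfold Mr
        rw [Int.natAbs_mul, Int.natAbs_mul, Int.natAbs_mul]
        calc B.natAbs * ((r.2 : ℤ) - r.1).natAbs * ((z : ℤ) - r.1).natAbs * ((z : ℤ) - r.2).natAbs
            ≤ (256 * N ^ 4) * N * N * N := by
              gcongr
              · omega
              · omega
              · omega
          _ = 256 * N ^ 7 := by ring
      have h1 := hdiv _ _ h0 hle
      refine h1.trans (le_of_eq ?_)
      push_cast
      rw [Real.mul_rpow (by norm_num) (by positivity), ← Real.rpow_natCast, ← Real.rpow_mul hN0.le]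
      have : ((7 : ℕ) : ℝ) * (ε / 7) = ε := by push_cast; ring
      rw [this]
      ring
  have hA2 := cardA2 N E z B S hE hB hS _ hD
  have hA1 := cardA1 S z B
  have hA3 := cardA3 E z B S
  have hsub : E3 S z B ⊆ (E3 S z B).filter (fun t => t.2.1 = t.2.2) ∪
      ((E3 S z B).filter (fun t => t.2.1 ≠ t.2.2 ∧ E < sp t) ∪
        (E3 S z B).filter (fun t => sp t ≤ E)) := by
    intro t ht
    rw [mem_union, mem_union, mem_filter, mem_filter, mem_filter]
    by_cases h1 : t.2.1 = t.2.2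
    · exact Or.inl ⟨ht, h1⟩
    · by_cases h2 : sp t ≤ E
      · exact Or.inr (Or.inr ⟨ht, h2⟩)
      · exact Or.inr (Or.inl ⟨ht, h1, by omega⟩)
  have hcard : (E3 S z B).card ≤ ((E3 S z B).filter (fun t => t.2.1 = t.2.2)).card +
      (((E3 S z B).filter (fun t => t.2.1 ≠ t.2.2 ∧ E < sp t)).card +
        ((E3 S z B).filter (fun t => sp t ≤ E)).card) :=
    (card_le_card hsub).trans ((card_union_le _ _).trans
      (Nat.add_le_add_left (card_union_le _ _) _))
  have hcard' : ((E3 S z B).card : ℝ) ≤ (((E3 S z B).filter (fun t => t.2.1 = t.2.2)).card : ℝ) +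
      ((((E3 S z B).filter (fun t => t.2.1 ≠ t.2.2 ∧ E < sp t)).card : ℝ) +
        (((E3 S z B).filter (fun t => sp t ≤ E)).card : ℝ)) := by exact_mod_cast hcard
  have hA1' : (((E3 S z B).filter (fun t => t.2.1 = t.2.2)).card : ℝ) ≤ (S.card : ℝ) ^ 2 := by
    exact_mod_cast hA1
  have hA3' : (((E3 S z B).filter (fun t => sp t ≤ E)).card : ℝ) ≤
      2 * (S.card : ℝ) * ∑ e ∈ Icc 1 E, ((G2 S e).card : ℝ) := by
    exact_mod_cast hA3
  have hfin : (S.card : ℝ) ^ 2 * (C0 * (256 : ℝ) ^ (ε / 7) * (N : ℝ) ^ ε *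
      (2 * Real.sqrt (N / E))) = 2 * (C0 * (256 : ℝ) ^ (ε / 7)) * (S.card : ℝ) ^ 2 *
      (N : ℝ) ^ (1 / 2 + ε) / Real.sqrt E := by
    rw [Real.sqrt_div hN0.le, Real.rpow_add hN0, ← Real.sqrt_eq_rpow]
    ring
  rw [hfin] at hA2
  linarith

end Pool.Agent.Helper54.RD
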