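import Pool.Agent.Helper18.RD.Stmts

set_option autoImplicit false

namespace Pool.Agent.Helper18.RD

open Finset

lemma mlow_edge {N q : ℕ} {S : Finset ℕ} {e : ℕ → ℕ → ℤ} {c d : ℕ → ℕ → ℤ} {k : ℤ} {w : ℝ}
    (hD : Dat N q S e c d k w) {n n' : ℕ} (hn : n ∈ S) (hn' : n' ∈ S) (h : n ≠ n') :
    (c n n' ≠ 0 ∧ |c n n'| ≤ 2 * N) ∧ (d n n' ≠ 0 ∧ |d n n'| ≤ 2 * N) := by
  have h1 := hD.cd n hn n' hn' h
  have hnN : n < N := by simpa using hD.sub hn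
  have hnN' : n' < N := by simpa using hD.sub hn'
  have hk0 : k ≠ 0 := by rcases hD.kap with h | h <;> rw [h] <;> norm_num
  have hk2 : |k| ≤ 2 := by rcases hD.kap with h | h <;> rw [h] <;> norm_num
  have hne : ((n : ℤ) - n') ≠ 0 := by
    intro h0
    apply h
    have : (n : ℤ) = n' := by linarith
    exact_mod_cast this
  have hcd : c n n' * d n n' ≠ 0 := by rw [h1]; exact mul_ne_zero hk0 hne
  have hc : c n n' ≠ 0 := left_ne_zero_of_mul hcd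
  have hd : d n n' ≠ 0 := right_ne_zero_of_mul hcd
  have habs : |(n : ℤ) - n'| ≤ N := by
    rw [abs_le]; constructor <;> omega
  have hprod : |c n n'| * |d n n'| ≤ 2 * N := by
    rw [← abs_mul, h1, abs_mul]
    exact mul_le_mul hk2 habs (abs_nonneg _) (by norm_num)
  have hc1 : 1 ≤ |c n n'| := Int.one_le_abs hc
  have hd1 : 1 ≤ |d n n'| := Int.one_le_abs hd
  refine ⟨⟨hc, ?_⟩, ⟨hd, ?_⟩⟩
  · nlinarith
  · nlinarith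

lemma mlow_cyc {N : ℕ} {S : Finset ℕ} {c : ℕ → ℕ → ℤ}
    (h : ∀ n ∈ S, ∀ n' ∈ S, n ≠ n' → c n n' ≠ 0 ∧ |c n n'| ≤ 2 * (N : ℤ))
    {t : ℕ × ℕ × ℕ × ℕ} (ht : t ∈ T4 S) :
    cyc c t ≠ 0 ∧ |cyc c t| ≤ (((2 * N) ^ 4 : ℕ) : ℤ) := by
  unfold T4 at ht
  simp only [mem_filter, mem_product] at ht
  obtain ⟨⟨h1, h2, h3, h4⟩, a1, a2, a3, a4⟩ := ht
  obtain ⟨b1, b1'⟩ := h _ h1 _ h3 a1
  obtain ⟨b2, b2'⟩ := h _ h1 _ h4 a2
  obtain ⟨b3, b3'⟩ := h _ h2 _ h3 a3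
  obtain ⟨b4, b4'⟩ := h _ h2 _ h4 a4
  unfold cyc
  refine ⟨mul_ne_zero (mul_ne_zero (mul_ne_zero b1 b2) b3) b4, ?_⟩
  rw [abs_mul, abs_mul, abs_mul]
  have e : (((2 * N) ^ 4 : ℕ) : ℤ) = (2 * (N : ℤ)) * (2 * N) * (2 * N) * (2 * N) := by
    push_cast; ring
  rw [e]
  have h0 : (0 : ℤ) ≤ 2 * N := by positivity
  gcongr

lemma mlow_card (S : Finset ℕ) : (T4 S).card ≤ S.card ^ 4 := by
  unfold T4
  refine (card_filter_le _ _).trans ?_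
  rw [card_product, card_product, card_product]
  apply le_of_eq
  ring

/-- lower bound for `QQ` at the two halves of a good tuple -/
lemma mlow_QQ (hL : ST_LOW) {N q P : ℕ} {S : Finset ℕ} {e : ℕ → ℕ → ℤ} {c d : ℕ → ℕ → ℤ} {k : ℤ}
    {w : ℝ} (hD : Dat N q S e c d k w) {t : Fin (20 + 20) → ℕ} (ht : ∀ i, t i ∈ PP q P)
    (hg : Good S e (20 + 20) t) :
    ((S.card : ℤ)) ^ 8 ≤ (4 ^ 160) ^ 2 *
      (QQ S c d (∏ i : Fin 20, t (Fin.castAdd 20 i)) (∏ i : Fin 20, t (Fin.natAdd 20 i))) ^ 2 := by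
  have hOP : ∀ i, t i ∈ OP q := fun i => (mem_filter.mp (ht i)).1
  set X : Finset ℕ := S.filter (fun n => ∀ i, e n (t i) = 1) with hX
  set σ : Fin (20 + 20) → ℤ := fun i => if (i : ℕ) < 20 then -1 else 1 with hσ
  set Y : Finset ℕ := S.filter (fun n => ∀ i, e n (t i) = σ i) with hY
  have hσ1 : ∀ i : Fin 20, σ (Fin.castAdd 20 i) = -1 := by
    intro i
    simp only [hσ, Fin.val_castAdd]
    rw [if_pos i.2]
  have hσ2 : ∀ i : Fin 20, σ (Fin.natAdd 20 i) = 1 := by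
    intro i
    simp only [hσ, Fin.val_natAdd]
    rw [if_neg (by omega)]
  have hXc : S.card ≤ 4 ^ 40 * X.card := hg (fun _ => 1) (fun _ => Or.inl rfl)
  have hYc : S.card ≤ 4 ^ 40 * Y.card := hg σ (fun i => by
    simp only [hσ]
    split_ifs
    · right; rfl
    · left; rfl)
  have h1 := hL N q S e c d k w 20 (fun i => t (Fin.castAdd 20 i)) (fun i => t (Fin.natAdd 20 i))
    X Y hD (by norm_num) (fun i => hOP _) (fun i => hOP _) (filter_subset _ _)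
    (filter_subset _ _)
    (fun n hn i => by
      rw [hX, mem_filter] at hn
      exact ⟨hn.2 _, hn.2 _⟩)
    (fun n hn i => by
      rw [hY, mem_filter] at hn
      exact ⟨(hn.2 _).trans (hσ1 i), (hn.2 _).trans (hσ2 i)⟩)
  set Q : ℤ := QQ S c d (∏ i : Fin 20, t (Fin.castAdd 20 i)) (∏ i : Fin 20, t (Fin.natAdd 20 i))
    with hQ
  have hXz : (S.card : ℤ) ≤ 4 ^ 40 * X.card := by exact_mod_cast hXc
  have hYz : (S.card : ℤ) ≤ 4 ^ 40 * Y.card := by exact_mod_cast hYc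
  have hs0 : (0 : ℤ) ≤ S.card := by positivity
  have h2 : (S.card : ℤ) ^ 2 ≤ 4 ^ 80 * ((X.card : ℤ) * Y.card) := by
    have := mul_le_mul hXz hYz hs0 (by positivity)
    calc (S.card : ℤ) ^ 2 = S.card * S.card := by ring
      _ ≤ (4 ^ 40 * X.card) * (4 ^ 40 * Y.card) := this
      _ = 4 ^ 80 * ((X.card : ℤ) * Y.card) := by ring
  have h3 : (S.card : ℤ) ^ 4 ≤ 4 ^ 160 * ((X.card : ℤ) * Y.card) ^ 2 := by
    calc (S.card : ℤ) ^ 4 = ((S.card : ℤ) ^ 2) ^ 2 := by ring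
      _ ≤ (4 ^ 80 * ((X.card : ℤ) * Y.card)) ^ 2 := pow_le_pow_left₀ (by positivity) h2 2
      _ = 4 ^ 160 * ((X.card : ℤ) * Y.card) ^ 2 := by ring
  have h4 : (S.card : ℤ) ^ 4 ≤ 4 ^ 160 * Q := h3.trans (mul_le_mul_of_nonneg_left h1 (by positivity))
  calc (S.card : ℤ) ^ 8 = ((S.card : ℤ) ^ 4) ^ 2 := by ring
    _ ≤ (4 ^ 160 * Q) ^ 2 := pow_le_pow_left₀ (by positivity) h4 2
    _ = (4 ^ 160) ^ 2 * Q ^ 2 := by ring

theorem st_MLOW (hL : ST_LOW) (hS : ST_SUM) (hF : ST_FIB) : ST_MLOW := by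
  intro c0 hc0
  refine ⟨(4 ^ 160) ^ 2 * 20 ^ 40 * (2 / c0) ^ 40 * 2 ^ 21, by positivity, ?_⟩
  intro N q P S e c d k w T hN hNP hD hPP hT hTc
  set Z : ℕ := P ^ 20 with hZ
  set L : ℝ := 1 + Real.log N with hLdef
  have hNr : (1 : ℝ) ≤ N := by exact_mod_cast hN
  have hL1 : 1 ≤ L := by
    have := Real.log_nonneg hNr
    rw [hLdef]; linarith
  have hL0 : 0 < L := by linarith
  have hP1 : 1 ≤ P := by
    rcases Nat.eq_zero_or_pos P with h | h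
    · subst h; omega
    · exact h
  have hZN : N ^ 10 ≤ Z := by
    calc N ^ 10 ≤ (P ^ 2) ^ 10 := Nat.pow_le_pow_left hNP 10
      _ = Z := by rw [hZ, ← pow_mul]
  -- step 1: integers
  have hcy : ∀ t ∈ T4 S, cyc c t ≠ 0 ∧ |cyc c t| ≤ (((2 * N) ^ 4 : ℕ) : ℤ) ∧ cyc d t ≠ 0 ∧
      |cyc d t| ≤ (((2 * N) ^ 4 : ℕ) : ℤ) := by
    intro t ht
    obtain ⟨a1, a2⟩ := mlow_cyc (N := N) (c := c)
      (fun n hn n' hn' h => (mlow_edge hD hn hn' h).1) ht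
    obtain ⟨a3, a4⟩ := mlow_cyc (N := N) (c := d)
      (fun n hn n' hn' h => (mlow_edge hD hn hn' h).2) ht
    exact ⟨a1, a2, a3, a4⟩
  have h1 := hS (ℕ × ℕ × ℕ × ℕ) (T4 S) (cyc c) (cyc d) ((2 * N) ^ 4) Z hcy
  have h2 := hF 20 P T (fun r r' => (QQ S c d r r') ^ 2) (by norm_num) (fun r r' => sq_nonneg _)
    (fun t ht => ⟨(hT t ht).1, fun i => by
      have h := (hT t ht).2.1 i
      unfold PP OP at h
      simp only [mem_filter, mem_erase, Nat.mem_primeFactors] at h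
      exact ⟨h.1.2.1, h.1.1, h.2⟩⟩)
  have h3 : (T.card : ℤ) * (S.card : ℤ) ^ 8 ≤ (4 ^ 160) ^ 2 * ∑ t ∈ T,
      (QQ S c d (∏ i : Fin 20, t (Fin.castAdd 20 i)) (∏ i : Fin 20, t (Fin.natAdd 20 i))) ^ 2 := by
    rw [mul_sum, ← nsmul_eq_mul]
    refine card_nsmul_le_sum T _ _ fun t ht => ?_
    exact mlow_QQ hL hD (hT t ht).2.1 (hT t ht).2.2
  have h4 : (T.card : ℤ) * (S.card : ℤ) ^ 8 ≤ (4 ^ 160) ^ 2 * (20 ^ 40 *
      ((Z : ℤ) ^ 2 * (MM S c d).card + (2 * Z * (4 * (((2 * N) ^ 4 : ℕ) : ℤ) ^ 2) +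
        (4 * (((2 * N) ^ 4 : ℕ) : ℤ) ^ 2) ^ 2) * ((T4 S).card : ℤ) ^ 2)) := by
    refine h3.trans (mul_le_mul_of_nonneg_left ?_ (by positivity))
    refine h2.trans ?_
    have e1 : ((20 : ℕ) : ℤ) ^ (2 * 20) = 20 ^ 40 := by norm_num
    rw [e1]
    refine mul_le_mul_of_nonneg_left ?_ (by positivity)
    exact h1
  -- step 2: reals
  have h5 : (T.card : ℝ) * (S.card : ℝ) ^ 8 ≤ (4 ^ 160) ^ 2 * (20 ^ 40 *
      ((Z : ℝ) ^ 2 * (MM S c d).card + (2 * Z * (4 * ((2 * (N : ℝ)) ^ 4) ^ 2) +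
        (4 * ((2 * (N : ℝ)) ^ 4) ^ 2) ^ 2) * ((T4 S).card : ℝ) ^ 2)) := by
    exact_mod_cast h4
  have hZr : (N : ℝ) ^ 10 ≤ Z := by exact_mod_cast hZN
  have hN0 : (0 : ℝ) < N := by linarith
  have hZ0 : (0 : ℝ) < Z := lt_of_lt_of_le (by positivity) hZr
  have h6 : 2 * (Z : ℝ) * (4 * ((2 * (N : ℝ)) ^ 4) ^ 2) + (4 * ((2 * (N : ℝ)) ^ 4) ^ 2) ^ 2 ≤
      2 ^ 21 * (Z : ℝ) ^ 2 / (N : ℝ) ^ 2 := by
    rw [le_div_iff₀ (by positivity)]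
    have e1 : (2 * (Z : ℝ) * (4 * ((2 * (N : ℝ)) ^ 4) ^ 2) + (4 * ((2 * (N : ℝ)) ^ 4) ^ 2) ^ 2) *
        (N : ℝ) ^ 2 = 2 ^ 11 * (Z * (N : ℝ) ^ 10) + 2 ^ 20 * (N : ℝ) ^ 18 := by ring
    rw [e1]
    have a1 : (Z : ℝ) * (N : ℝ) ^ 10 ≤ (Z : ℝ) ^ 2 := by
      rw [pow_two]
      exact mul_le_mul_of_nonneg_left hZr hZ0.le
    have a2 : (N : ℝ) ^ 18 ≤ (Z : ℝ) ^ 2 := by
      calc (N : ℝ) ^ 18 ≤ (N : ℝ) ^ 20 := pow_le_pow_right₀ hNr (by norm_num)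
        _ = ((N : ℝ) ^ 10) ^ 2 := by ring
        _ ≤ (Z : ℝ) ^ 2 := pow_le_pow_left₀ (by positivity) hZr 2
    nlinarith
  have h7 : ((T4 S).card : ℝ) ^ 2 ≤ (S.card : ℝ) ^ 8 := by
    have : ((T4 S).card : ℝ) ≤ (S.card : ℝ) ^ 4 := by exact_mod_cast mlow_card S
    calc ((T4 S).card : ℝ) ^ 2 ≤ ((S.card : ℝ) ^ 4) ^ 2 := pow_le_pow_left₀ (by positivity) this 2
      _ = (S.card : ℝ) ^ 8 := by ring
  have h8 : (Z : ℝ) ^ 2 * (MM S c d).card + (2 * Z * (4 * ((2 * (N : ℝ)) ^ 4) ^ 2) +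
        (4 * ((2 * (N : ℝ)) ^ 4) ^ 2) ^ 2) * ((T4 S).card : ℝ) ^ 2 ≤
      2 ^ 21 * (Z : ℝ) ^ 2 * (((MM S c d).card : ℝ) + (S.card : ℝ) ^ 8 / (N : ℝ) ^ 2) := by
    have b1 := mul_le_mul h6 h7 (by positivity) (by positivity)
    have b2 : (0 : ℝ) ≤ (Z : ℝ) ^ 2 * (MM S c d).card := by positivity
    have e2 : 2 ^ 21 * (Z : ℝ) ^ 2 * (((MM S c d).card : ℝ) + (S.card : ℝ) ^ 8 / (N : ℝ) ^ 2) =
        2 ^ 21 * ((Z : ℝ) ^ 2 * (MM S c d).card) + 2 ^ 21 * (Z : ℝ) ^ 2 / (N : ℝ) ^ 2 *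
          (S.card : ℝ) ^ 8 := by ring
    rw [e2]
    have b3 : (Z : ℝ) ^ 2 * (MM S c d).card ≤ 2 ^ 21 * ((Z : ℝ) ^ 2 * (MM S c d).card) :=
      le_mul_of_one_le_left b2 (by norm_num)
    linarith
  -- lower bound for the number of tuples
  have h9 : (Z : ℝ) ^ 2 * (c0 / (2 * L)) ^ 40 ≤ T.card := by
    have b1 : ((PP q P).card : ℝ) ^ 40 ≤ 2 ^ 40 * T.card := by exact_mod_cast hTc
    have b2 : (c0 * P / L) ^ 40 ≤ ((PP q P).card : ℝ) ^ 40 :=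
      pow_le_pow_left₀ (by positivity) hPP 40
    have e3 : (Z : ℝ) ^ 2 * (c0 / (2 * L)) ^ 40 = (c0 * P / L) ^ 40 / 2 ^ 40 := by
      rw [hZ]
      push_cast
      rw [div_pow, div_pow, mul_pow, mul_pow, ← pow_mul]
      field_simp
    rw [e3, div_le_iff₀ (by positivity)]
    linarith
  have h10 : (Z : ℝ) ^ 2 * (c0 / (2 * L)) ^ 40 * (S.card : ℝ) ^ 8 ≤
      (4 ^ 160) ^ 2 * (20 ^ 40 * (2 ^ 21 * (Z : ℝ) ^ 2 *
        (((MM S c d).card : ℝ) + (S.card : ℝ) ^ 8 / (N : ℝ) ^ 2))) := by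
    refine (mul_le_mul_of_nonneg_right h9 (by positivity)).trans (h5.trans ?_)
    exact mul_le_mul_of_nonneg_left (mul_le_mul_of_nonneg_left h8 (by positivity)) (by positivity)
  set R : ℝ := ((MM S c d).card : ℝ) + (S.card : ℝ) ^ 8 / (N : ℝ) ^ 2 with hR
  have h11 : (c0 / (2 * L)) ^ 40 * (S.card : ℝ) ^ 8 ≤ (4 ^ 160) ^ 2 * 20 ^ 40 * 2 ^ 21 * R := by
    have hZ2 : (0 : ℝ) < (Z : ℝ) ^ 2 := by positivity
    refine le_of_mul_le_mul_left ?_ hZ2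
    calc (Z : ℝ) ^ 2 * ((c0 / (2 * L)) ^ 40 * (S.card : ℝ) ^ 8)
        = (Z : ℝ) ^ 2 * (c0 / (2 * L)) ^ 40 * (S.card : ℝ) ^ 8 := by ring
      _ ≤ _ := h10
      _ = (Z : ℝ) ^ 2 * ((4 ^ 160) ^ 2 * 20 ^ 40 * 2 ^ 21 * R) := by ring
  have hq : (c0 / (2 * L)) ^ 40 * ((2 / c0) ^ 40 * L ^ 40) = 1 := by
    rw [← mul_pow, ← mul_pow]
    have : c0 / (2 * L) * (2 / c0 * L) = 1 := by field_simp
    rw [this, one_pow]
  calc (S.card : ℝ) ^ 8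
      = ((2 / c0) ^ 40 * L ^ 40) * ((c0 / (2 * L)) ^ 40 * (S.card : ℝ) ^ 8) := by
        rw [← mul_assoc, mul_comm ((2 / c0) ^ 40 * L ^ 40), hq, one_mul]
    _ ≤ ((2 / c0) ^ 40 * L ^ 40) * ((4 ^ 160) ^ 2 * 20 ^ 40 * 2 ^ 21 * R) :=
        mul_le_mul_of_nonneg_left h11 (by positivity)
    _ = (4 ^ 160) ^ 2 * 20 ^ 40 * (2 / c0) ^ 40 * 2 ^ 21 * L ^ 40 * R := by ring

end Pool.Agent.Helper18.RD
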